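import Pool.Agent.Helper98.UN.CE4

/-!
Orthogonal Mumford-Tate pairs (MP_b8862a_ag, type III), block CS: spin systems whose weights are
symmetric and have integral norms.
-/

open Module

namespace OR

open UN

namespace Spin

open UN.CE4

variable {K : Type*} [Field K] [CharZero K] {M : Type*} [AddCommGroup M] [Module K M]
  {B : LinearMap.BilinForm K M} {s : M →ₗ[K] K} {c : K} {Φ X : Finset M}

/-- a weight of value `c` in terms of the roots on which it is one -/
theorem two_smul_eq (h : USL B s c Φ X) {p : M → M} (hp : Inv B s Φ p) {x : M} (hx : x ∈ X)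
    (hsx : s x = c) {u : M} (hu : ∀ m, B u m = s m) :
    (2 : K) • x = u + ∑ a ∈ S B s Φ x, (a - u) := by
  classical
  rw [← sub_eq_zero]
  apply h.hit
  intro q hq hsq
  have hsec := sec_S h hp hx hsx
  -- the value of the sum
  have hsum : B (∑ a ∈ S B s Φ x, (a - u)) q = ∑ a ∈ S B s Φ x, (B a q - 1) := by
    rw [map_sum, LinearMap.sum_apply]
    refine Finset.sum_congr rfl fun a _ => ?_
    rw [map_sub, LinearMap.sub_apply, hu, hsq]
  have hone : ∀ a ∈ S B s Φ x, q ≠ a → q ≠ p a → B a q - 1 = 0 := by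
    intro a ha h1 h2
    obtain ⟨haΦ, hsa, -⟩ := mem_S.1 ha
    rw [hp.adj a haΦ q hq hsa hsq h1 h2, sub_self]
  rw [map_sub, map_add, LinearMap.sub_apply, LinearMap.add_apply, map_smul, LinearMap.smul_apply,
    smul_eq_mul, hu, hsq, hsum]
  rcases vals h hp hx hsx hq hsq with ⟨h1, h2⟩ | ⟨h1, h2⟩
  · have hqS : q ∈ S B s Φ x := mem_S.2 ⟨hq, hsq, h1⟩
    rw [Finset.sum_eq_single_of_mem q hqS, h.two q hq, h1]
    · ring
    · intro b hb hbq
      apply hone b hb (Ne.symm hbq)
      intro h3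
      have h4 := (hsec.2 b (mem_S.1 hb).1 (mem_S.1 hb).2.1).1 hb
      rw [← h3] at h4
      exact h4 hqS
  · have hpq := hp.mem q hq hsq
    have hspq := hp.one q hq hsq
    have hqS : p q ∈ S B s Φ x := mem_S.2 ⟨hpq, hspq, h2⟩
    have hqn : q ∉ S B s Φ x := by
      intro h3
      have h4 := (mem_S.1 h3).2.2
      rw [h1] at h4
      exact zero_ne_one h4
    rw [Finset.sum_eq_single_of_mem (p q) hqS, h.symm (p q) q, hp.zero q hq hsq, h1]
    · ring
    · intro b hb hbq
      apply hone b hb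
      · rintro rfl
        exact hqn hb
      · intro h3
        apply hbq
        rw [h3, hp.inv b (mem_S.1 hb).1 (mem_S.1 hb).2.1]

/-- the norm of a weight of value `c` -/
theorem four_mul_norm (h : USL B s c Φ X) {p : M → M} (hp : Inv B s Φ p) {x : M} (hx : x ∈ X)
    (hsx : s x = c) : 4 * B x x = (S B s Φ x).card + 1 := by
  classical
  obtain ⟨u, hu⟩ := h.exists_vec
  have hc := two_c h hp
  have h1 := two_smul_eq h hp hx hsx hu
  have h2 := congrArg (fun y => B y x) h1
  simp only [map_smul, LinearMap.smul_apply, smul_eq_mul, map_add, LinearMap.add_apply, hu, hsx,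
    map_sum, LinearMap.sum_apply, map_sub, LinearMap.sub_apply] at h2
  have h3 : ∑ a ∈ S B s Φ x, (B a x - c) = (S B s Φ x).card * (1 - c) := by
    rw [Finset.sum_congr rfl (g := fun _ => 1 - c), Finset.sum_const, nsmul_eq_mul]
    intro a ha
    rw [h.symm a x, (mem_S.1 ha).2.2]
  rw [h3] at h2
  linear_combination 2 * h2 + (1 - ((S B s Φ x).card : K)) * hc

end Spin

section comb

variable {K : Type*} [Field K] [CharZero K] {M : Type*} [AddCommGroup M] [Module K M]
  {B : LinearMap.BilinForm K M} {s : M →ₗ[K] K} {c : K} {Φ X : Finset M}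

open Classical UN.CE4 in
/-- CS: spin systems. -/
theorem spin (h : USL B s c Φ X) (hneg : ∀ x ∈ X, -x ∈ X)
    (hq : ∀ x ∈ X, ∃ q : ℕ, B x x = q)
    (hr : ∃ a ∈ Φ, s a = 1 ∧ (X.filter (fun x => B x a = 1)).card ≠ 1)
    {α β : M} (hα : α ∈ Φ) (hβ : β ∈ Φ) (hsα : s α = 1) (hsβ : s β = 1) (hαβ : B β α = 0)
    (hu : ∀ γ ∈ Φ, s γ = 1 → B β γ = 0 → γ = α) :
    ∃ n, n % 4 = 0 ∧ 4 ≤ n ∧ X.card = 2 ^ (n - 1) ∧
      ∀ a ∈ Φ, (X.filter (fun x => B x a = 1)).card = 2 ^ (n - 3) := by
  obtain ⟨p, hp⟩ := exists_inv h hα hβ hsα hsβ hαβ hu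
  have hc := two_c h hp
  have hcc : c ≠ c - 1 := by
    intro h1
    have : (1 : K) = 0 := by linear_combination h1
    exact one_ne_zero this
  obtain ⟨a₀, ha₀, hsa₀, hra₀⟩ := hr
  obtain ⟨x₀, hx₀, hxa₀⟩ := h.faith a₀ ha₀
  have hs₀ := (CR2.f1' h hx₀ ha₀ hsa₀ hxa₀).1
  have ha₀S : a₀ ∈ S B s Φ x₀ := mem_S.2 ⟨ha₀, hsa₀, hxa₀⟩
  have hR := sec_S h hp hx₀ hs₀
  set N := (S B s Φ x₀).card with hN
  -- the counts at the roots of value one
  have count : ∀ a ∈ Φ, s a = 1 → ∀ x ∈ X, B x a = 1 → 2 ≤ N →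
      (X.filter (fun x => B x a = 1)).card = 2 ^ (N - 2) := by
    intro a ha hsa x hx hxa hN2
    have hsx := (CR2.f1' h hx ha hsa hxa).1
    have haS : a ∈ S B s Φ x := mem_S.2 ⟨ha, hsa, hxa⟩
    have hcard : (S B s Φ x).card = N := card_sec hp (sec_S h hp hx hsx) hR
    rw [card_one h hp hx hsx haS]
    have h1 : ((S B s Φ x).erase a).card = N - 1 := by
      rw [Finset.card_erase_of_mem haS, hcard]
    obtain ⟨b, hb⟩ : ((S B s Φ x).erase a).Nonempty := Finset.card_pos.1 (by omega)
    rw [card_even hb, h1]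
    congr 1
  have hN2 : 2 ≤ N := by
    by_contra hcon
    apply hra₀
    rw [card_one h hp hx₀ hs₀ ha₀S]
    have h1 : (S B s Φ x₀).erase a₀ = ∅ := by
      rw [← Finset.card_eq_zero, Finset.card_erase_of_mem ha₀S]
      omega
    rw [h1, Finset.powerset_empty, Finset.filter_singleton, if_pos (by simp)]
    rfl
  have hN3 : 3 ≤ N := by
    by_contra hcon
    apply hra₀
    rw [count a₀ ha₀ hsa₀ x₀ hx₀ hxa₀ hN2]
    have : N - 2 = 0 := by omega
    rw [this, pow_zero]
  have cplus : (X.filter (fun x => s x = c)).card = 2 ^ (N - 1) :=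
    card_plus h hp hx₀ hs₀ ha₀S
  -- the norm
  have hN4 : (N + 1) % 4 = 0 := by
    obtain ⟨q, hq⟩ := hq x₀ hx₀
    have h1 := Spin.four_mul_norm h hp hx₀ hs₀
    rw [hq, ← hN] at h1
    have h2 : 4 * q = N + 1 := by exact_mod_cast h1
    omega
  have heq : (X.filter (fun x => s x = c)).card = (X.filter (fun x => s x = c - 1)).card := by
    refine Finset.card_bij' (fun x _ => -x) (fun x _ => -x) ?_ ?_ ?_ ?_
    · intro x hx
      rw [Finset.mem_filter] at hx ⊢
      refine ⟨hneg x hx.1, ?_⟩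
      rw [map_neg, hx.2]
      linear_combination -hc
    · intro x hx
      rw [Finset.mem_filter] at hx ⊢
      refine ⟨hneg x hx.1, ?_⟩
      rw [map_neg, hx.2]
      linear_combination -hc
    · intro x _
      exact neg_neg x
    · intro x _
      exact neg_neg x
  have cX : X.card = 2 ^ N := by
    have h1 : X = X.filter (fun x => s x = c) ∪ X.filter (fun x => s x = c - 1) := by
      ext x
      rw [Finset.mem_union, Finset.mem_filter, Finset.mem_filter]
      constructor
      · intro hx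
        rcases h.sx x hx with h1 | h1
        · exact Or.inl ⟨hx, h1⟩
        · exact Or.inr ⟨hx, h1⟩
      · rintro (h1 | h1)
        · exact h1.1
        · exact h1.1
    have h2 : Disjoint (X.filter (fun x => s x = c)) (X.filter (fun x => s x = c - 1)) := by
      rw [Finset.disjoint_left]
      intro x h2 h3
      exact hcc ((Finset.mem_filter.1 h2).2.symm.trans (Finset.mem_filter.1 h3).2)
    rw [h1, Finset.card_union_of_disjoint h2, ← heq, cplus]
    obtain ⟨m, hm⟩ : ∃ m, N = m + 1 := ⟨N - 1, by omega⟩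
    rw [hm, Nat.add_sub_cancel]
    ring
  -- reflections
  have hrefl : ∀ a ∈ Φ, (X.filter (fun x => B x (-a) = 1)).card =
      (X.filter (fun x => B x a = 1)).card := by
    intro a ha
    refine Finset.card_bij' (fun x _ => -x) (fun x _ => -x) ?_ ?_ ?_ ?_
    · intro x hx
      rw [Finset.mem_filter] at hx ⊢
      refine ⟨hneg x hx.1, ?_⟩
      have h1 := hx.2
      rw [map_neg] at h1
      rw [map_neg, LinearMap.neg_apply]
      exact h1
    · intro x hx
      rw [Finset.mem_filter] at hx ⊢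
      refine ⟨hneg x hx.1, ?_⟩
      have h1 := hx.2
      simp only [map_neg, LinearMap.neg_apply, neg_neg]
      exact h1
    · intro x _
      exact neg_neg x
    · intro x _
      exact neg_neg x
  have num1 : ∀ a ∈ Φ, s a = 1 → (X.filter (fun x => B x a = 1)).card = 2 ^ (N - 2) := by
    intro a ha hsa
    obtain ⟨x, hx, hxa⟩ := h.faith a ha
    exact count a ha hsa x hx hxa hN2
  refine ⟨N + 1, hN4, by omega, ?_, ?_⟩
  · rw [cX]; rfl
  · intro g hg
    have e : N + 1 - 3 = N - 2 := by omega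
    rw [e]
    rcases h.root_cases hg with h1 | ⟨a, ha, hsa, rfl⟩ | ⟨a, ha, b, hb, hsa, hsb, hab, rfl⟩
    · exact num1 g hg h1
    · rw [hrefl a ha]
      exact num1 a ha hsa
    · have h2 := h.two _ hg
      have h3 : B b a = B a b := h.symm _ _
      simp only [map_sub, LinearMap.sub_apply, h.two a ha, h.two b hb, h3] at h2
      have h4 : B (a - b) a = 1 := by
        rw [map_sub, LinearMap.sub_apply, h.two a ha, h3]
        have h5 : (2 : K) * (B a b - 1) = 0 := by linear_combination -h2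
        have h6 : B a b - 1 = 0 := (mul_eq_zero.1 h5).resolve_left two_ne_zero
        linear_combination -h6
      rw [CR2.card_eq h hg ha h4]
      exact num1 a ha hsa

end comb

end OR
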